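import Pool.Agent.Helper80.HD.GoalsA

/-!
# Project HD (MP_6af536_nt): algebraically independent families exist (packet GENEX)
-/

set_option autoImplicit false

open Cardinal

noncomputable section

namespace Pool.Agent.Helper69.HD

open Pool.Agent.Helper80.HD

theorem genex : S_GENEX := by
  intro K _ _ _ F hF ι _
  -- `K` is countable
  have hK : #K ≤ ℵ₀ := by
    have h1 : Algebra.IsAlgebraic ℚ K := inferInstance
    have h2 := Algebra.IsAlgebraic.cardinalMk_le_max ℚ K
    have h3 : #ℚ ≤ ℵ₀ := Cardinal.mk_le_aleph0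
    exact h2.trans (max_le h3 le_rfl)
  -- `F` is countable
  obtain ⟨s, hs⟩ := hF
  have hFc : #F ≤ ℵ₀ := by
    rw [← hs]
    refine (IntermediateField.cardinalMk_adjoin_le K (s : Set ℂ)).trans ?_
    refine max_le (max_le hK ?_) le_rfl
    exact (Cardinal.mk_le_aleph0 (α := (s : Set ℂ)))
  obtain ⟨b, hb⟩ := exists_isTranscendenceBasis F ℂ
  have hC : ℵ₀ < #ℂ := by
    rw [Cardinal.mk_complex]
    exact Cardinal.aleph0_lt_continuum
  have hcard := IsAlgClosed.cardinal_eq_cardinal_transcendence_basis_of_aleph0_lt _ hb hFc hC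
  simp only [Cardinal.lift_id] at hcard
  have hinf : Infinite b := by
    rw [← Cardinal.aleph0_le_mk_iff, ← hcard]
    exact hC.le
  obtain ⟨g, hg⟩ : ∃ g : ι → b, Function.Injective g := by
    obtain ⟨n, ⟨e⟩⟩ := Finite.exists_equiv_fin ι
    obtain ⟨h⟩ : Nonempty (ℕ ↪ b) := ⟨Infinite.natEmbedding b⟩
    exact ⟨fun i => h (e i : ℕ), fun i j hij => e.injective (Fin.ext (h.injective hij))⟩
  exact ⟨fun i => ((g i : b) : ℂ), hb.1.comp g hg⟩

end Pool.Agent.Helper69.HD
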