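import Pool.Agent.Helper80.HD.GoalsA

/-!
# Project HD (MP_6af536_nt): kernels of codimension one are principal (packet KER)
-/

set_option autoImplicit false

open MvPolynomial

noncomputable section

namespace Pool.Agent.Helper69.HD

open Pool.Agent.Helper80.HD

/-- One variable over a factorial ring. -/
theorem ker_poly {A : Type} [CommRing A] [IsDomain A] [UniqueFactorizationMonoid A] (g : A →+* ℂ)
    (hg : Function.Injective g) (t : ℂ) (h : ∃ p : Polynomial A, p ≠ 0 ∧ p.eval₂ g t = 0) :
    ∃ P : Polynomial A, Irreducible P ∧ 0 < P.natDegree ∧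
      ∀ Q : Polynomial A, P ∣ Q ↔ Q.eval₂ g t = 0 := by
  obtain ⟨p, hp0, hp⟩ := h
  have hprime : (RingHom.ker (Polynomial.eval₂RingHom g t)).IsPrime := RingHom.ker_isPrime _
  have hne : RingHom.ker (Polynomial.eval₂RingHom g t) ≠ ⊥ := by
    intro h
    have : p ∈ RingHom.ker (Polynomial.eval₂RingHom g t) := by
      rw [RingHom.mem_ker]
      exact hp
    rw [h, Ideal.mem_bot] at this
    exact hp0 this
  obtain ⟨P, hPI, hP⟩ := hprime.exists_mem_prime_of_ne_bot hne
  have hPI' : P.eval₂ g t = 0 := by
    rw [RingHom.mem_ker] at hPI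
    exact hPI
  have hdeg : P.natDegree ≠ 0 := by
    intro h0
    obtain ⟨a, ha⟩ := Polynomial.natDegree_eq_zero.mp h0
    rw [← ha, Polynomial.eval₂_C] at hPI'
    have : a = 0 := hg (by rw [hPI', map_zero])
    rw [this, map_zero] at ha
    exact hP.ne_zero ha.symm
  have hirr : Irreducible P := hP.irreducible
  have hprim : P.IsPrimitive := hirr.isPrimitive hdeg
  refine ⟨P, hirr, Nat.pos_of_ne_zero hdeg, fun Q => ⟨?_, fun hQ => ?_⟩⟩
  · rintro ⟨R, rfl⟩
    rw [Polynomial.eval₂_mul, hPI', zero_mul]
  · rw [hprim.dvd_iff_fraction_map_dvd_fraction_map (FractionRing A)]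
    by_contra hnd
    have hirrF : Irreducible (P.map (algebraMap A (FractionRing A))) :=
      (hprim.irreducible_iff_irreducible_map_fraction_map).mp hirr
    have hco := (hirrF.coprime_iff_not_dvd).mpr hnd
    obtain ⟨a, b, hab⟩ := hco
    have key := congrArg (Polynomial.eval₂RingHom (IsFractionRing.lift hg) t) hab
    have hcomp : (IsFractionRing.lift hg).comp (algebraMap A (FractionRing A)) = g := by
      ext x
      simp
    have e1 : ∀ R : Polynomial A, Polynomial.eval₂RingHom (IsFractionRing.lift hg) t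
        (R.map (algebraMap A (FractionRing A))) = R.eval₂ g t := by
      intro R
      rw [Polynomial.coe_eval₂RingHom, Polynomial.eval₂_map, hcomp]
    rw [map_add, map_mul, map_mul, e1, e1, hPI', hQ, map_one, mul_zero, mul_zero, add_zero] at key
    exact zero_ne_one key

theorem ker : S_KER := by
  intro K _ _ ι _ θ i0 hind hdep
  classical
  let A := MvPolynomial {i // i ≠ i0} K
  let g : A →ₐ[K] ℂ := aeval (fun i : {i // i ≠ i0} => θ i)
  have hg : Function.Injective g := hind
  let e : MvPolynomial ι K ≃ₐ[K] Polynomial A :=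
    (renameEquiv K (Equiv.optionSubtypeNe i0).symm).trans (optionEquivLeft K {i // i ≠ i0})
  have he : ∀ Q : MvPolynomial ι K, (e Q).eval₂ (g : A →+* ℂ) (θ i0) = aeval θ Q := by
    intro Q
    have h1 : ((Polynomial.eval₂RingHom (g : A →+* ℂ) (θ i0)).comp (e : MvPolynomial ι K →+* Polynomial A))
        = (aeval θ : MvPolynomial ι K →ₐ[K] ℂ).toRingHom := by
      apply MvPolynomial.ringHom_ext
      · intro r
        have e1 : e (C r) = Polynomial.C (C r) := by
          change optionEquivLeft K {i // i ≠ i0} (rename _ (C r)) = _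
          rw [rename_C, optionEquivLeft_C]
        change (e (C r)).eval₂ (g : A →+* ℂ) (θ i0) = aeval θ (C r)
        rw [e1, Polynomial.eval₂_C]
        change (aeval (fun i : {i // i ≠ i0} => θ i) : A →ₐ[K] ℂ) (C r) = aeval θ (C r)
        rw [aeval_C, aeval_C]
      · intro i
        change (e (X i)).eval₂ (g : A →+* ℂ) (θ i0) = aeval θ (X i)
        by_cases hi : i = i0
        · subst hi
          have e1 : e (X i) = Polynomial.X := by
            change optionEquivLeft K {j // j ≠ i} (rename _ (X i)) = _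
            rw [rename_X, Equiv.optionSubtypeNe_symm_self, optionEquivLeft_X_none]
          rw [e1, Polynomial.eval₂_X, aeval_X]
        · have e1 : e (X i) = Polynomial.C (X ⟨i, hi⟩) := by
            change optionEquivLeft K {j // j ≠ i0} (rename _ (X i)) = _
            rw [rename_X, Equiv.optionSubtypeNe_symm_of_ne hi, optionEquivLeft_X_some]
          rw [e1, Polynomial.eval₂_C, aeval_X]
          change (aeval (fun i : {i // i ≠ i0} => θ i) : A →ₐ[K] ℂ) (X ⟨i, hi⟩) = θ i
          rw [aeval_X]
    exact congrArg (fun φ : MvPolynomial ι K →+* ℂ => φ Q) h1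
  obtain ⟨p, hp0, hp⟩ : ∃ p : MvPolynomial ι K, p ≠ 0 ∧ aeval θ p = 0 := by
    rw [algebraicIndependent_iff] at hdep
    push Not at hdep
    obtain ⟨p, h1, h2⟩ := hdep
    exact ⟨p, h2, h1⟩
  obtain ⟨P, hirr, hdeg, hP⟩ := ker_poly (g : A →+* ℂ) hg (θ i0)
    ⟨e p, (map_ne_zero_iff e e.injective).mpr hp0, by rw [he, hp]⟩
  refine ⟨e.symm P, (MulEquiv.irreducible_iff e.symm).mpr hirr, ?_, ?_⟩
  · have h1 := degreeOf_eq_natDegree i0 (e.symm P)
    have h2 : optionEquivLeft K {b // b ≠ i0} (rename (Equiv.optionSubtypeNe i0).symm (e.symm P)) = P := by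
      have h3 : e (e.symm P) = P := e.apply_symm_apply P
      exact h3
    rw [h1, h2]
    exact hdeg
  · intro Q
    rw [← he Q, ← hP (e Q)]
    constructor
    · rintro ⟨R, rfl⟩
      rw [map_mul, AlgEquiv.apply_symm_apply]
      exact dvd_mul_right _ _
    · rintro ⟨R, hR⟩
      refine ⟨e.symm R, ?_⟩
      apply e.injective
      rw [map_mul, AlgEquiv.apply_symm_apply, AlgEquiv.apply_symm_apply, hR]

end Pool.Agent.Helper69.HD
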