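import Pool.Agent.Helper80.HD.GoalsB

/-!
# Project HD (MP_6af536_nt): small facts on `sub`, `up` (packet SUP)
-/

set_option autoImplicit false

open MvPolynomial

noncomputable section

namespace Pool.Agent.Helper69.HD

open Pool.Agent.Helper80.HD

/-- the injection of the blocks `1, …, k` -/
def sinj (k N : ℕ) (q : Fin k × Fin (N + 1)) : Fin (k + 1) × Fin (N + 1) := (q.1.succ, q.2)

theorem sinj_inj (k N : ℕ) : Function.Injective (sinj k N) := by
  rintro ⟨a, b⟩ ⟨c, d⟩ h
  have h1 := congrArg Prod.fst h
  have h2 := congrArg Prod.snd h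
  exact Prod.ext (Fin.succ_injective _ h1) h2

/-- the sum decomposition of the index set -/
def sdec (k N : ℕ) (q : Fin (k + 1) × Fin (N + 1)) : Fin (N + 1) ⊕ (Fin k × Fin (N + 1)) :=
  Fin.cases (motive := fun _ => Fin (N + 1) ⊕ (Fin k × Fin (N + 1))) (Sum.inl q.2)
    (fun i => Sum.inr (i, q.2)) q.1

theorem sdec_inj (k N : ℕ) : Function.Injective (sdec k N) := by
  rintro ⟨a, b⟩ ⟨c, d⟩ h
  induction a using Fin.cases with
  | zero =>
    induction c using Fin.cases with
    | zero =>
      simp only [sdec, Fin.cases_zero, Sum.inl.injEq] at h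
      rw [h]
    | succ c => simp [sdec] at h
  | succ a =>
    induction c using Fin.cases with
    | zero => simp [sdec] at h
    | succ c =>
      simp only [sdec, Fin.cases_succ, Sum.inr.injEq, Prod.mk.injEq] at h
      rw [h.1, h.2]

theorem sup : S_SUP := by
  intro K _ _ k N u
  refine ⟨fun R => ?_, fun R l => ?_, fun R => ?_, fun hu P hP => ?_, fun R hR => ?_⟩
  · unfold sub up
    rw [aeval_rename]
    have h := aeval_algebraMap_apply (B := MvPolynomial (Fin (N + 1)) (LK K u)) (uL K u) R
    exact h
  · change ((rename (sinj k N) R).support.sup fun s => ∑ j, s (l.succ, j)) = _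
    unfold bdeg
    rw [support_rename_of_injective (sinj_inj k N), Finset.sup_image]
    refine Finset.sup_congr rfl (fun s _ => ?_)
    simp only [Function.comp_apply]
    refine Finset.sum_congr rfl (fun j _ => ?_)
    exact Finsupp.mapDomain_apply (sinj_inj k N) s (l, j)
  · change ((rename (sinj k N) R).support.sup fun s => ∑ j, s (0, j)) = 0
    rw [support_rename_of_injective (sinj_inj k N), Finset.sup_image]
    refine le_antisymm (Finset.sup_le (fun s _ => ?_)) (Nat.zero_le _)
    simp only [Function.comp_apply]
    refine le_of_eq (Finset.sum_eq_zero (fun j _ => ?_))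
    refine Finsupp.mapDomain_of_notMem_range _ _ ?_
    rintro ⟨q, hq⟩
    exact Fin.succ_ne_zero _ (congrArg Prod.fst hq)
  · have huL : AlgebraicIndependent K (uL K u) := by
      have h1 : ((LK K u).val : LK K u → ℂ) ∘ uL K u = u := rfl
      rw [← h1] at hu
      exact (AlgHom.algebraicIndependent_iff (LK K u).val (LK K u).val.injective).mp hu
    -- the substitution as a composition of injective maps
    have hmap : Function.Injective (MvPolynomial.map (σ := Fin (N + 1))
        ((aeval (uL K u) : MvPolynomial (Fin k × Fin (N + 1)) K →ₐ[K] LK K u) :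
          MvPolynomial (Fin k × Fin (N + 1)) K →+* LK K u)) :=
      MvPolynomial.map_injective _ huL
    have hcomp : ((MvPolynomial.map (σ := Fin (N + 1))
        ((aeval (uL K u) : MvPolynomial (Fin k × Fin (N + 1)) K →ₐ[K] LK K u) :
          MvPolynomial (Fin k × Fin (N + 1)) K →+* LK K u)).comp
        ((sumAlgEquiv K (Fin (N + 1)) (Fin k × Fin (N + 1)) :
          MvPolynomial (Fin (N + 1) ⊕ (Fin k × Fin (N + 1))) K →+* _).comp
        ((rename (sdec k N) : MvPolynomial (Fin (k + 1) × Fin (N + 1)) K →ₐ[K] _) :
          MvPolynomial (Fin (k + 1) × Fin (N + 1)) K →+* _))) =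
        ((sub K (uL K u) : MvPolynomial (Fin (k + 1) × Fin (N + 1)) K →ₐ[K] _) :
          MvPolynomial (Fin (k + 1) × Fin (N + 1)) K →+* _) := by
      apply MvPolynomial.ringHom_ext
      · intro r
        change MvPolynomial.map _ (sumAlgEquiv K _ _ (rename (sdec k N) (C r))) = sub K (uL K u) (C r)
        rw [rename_C, sumAlgEquiv_C_inl, map_C]
        unfold sub
        rw [aeval_C]
        simp
      · rintro ⟨a, b⟩
        change MvPolynomial.map _ (sumAlgEquiv K _ _ (rename (sdec k N) (X (a, b)))) =
          sub K (uL K u) (X (a, b))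
        rw [rename_X]
        unfold sub
        rw [aeval_X]
        induction a using Fin.cases with
        | zero =>
          simp only [sdec, Fin.cases_zero]
          rw [sumAlgEquiv_X_inl, map_X]
        | succ a =>
          simp only [sdec, Fin.cases_succ]
          rw [sumAlgEquiv_X_inr, map_C]
          congr 1
          exact aeval_X _ _
    intro h0
    have h1 := congrArg (fun φ : MvPolynomial (Fin (k + 1) × Fin (N + 1)) K →+* _ => φ P) hcomp
    change MvPolynomial.map _ (sumAlgEquiv K _ _ (rename (sdec k N) P)) = sub K (uL K u) P at h1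
    rw [h0] at h1
    have h2 := hmap (h1.trans (map_zero _).symm)
    have h3 := (sumAlgEquiv K (Fin (N + 1)) (Fin k × Fin (N + 1))).injective (h2.trans (map_zero _).symm)
    exact hP (rename_injective _ (sdec_inj k N) (h3.trans (map_zero _).symm))
  · exact fun h => hR ((rename_injective _ (sinj_inj k N)) (by rw [map_zero]; exact h))

end Pool.Agent.Helper69.HD
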